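import Pool.Agent.helper53.ORE.Final
import Pool.Agent.helper17.EXC.Chev
import Pool.Agent.helper32.TRG.Main

/-! # MP_561ff4_al: conjugates generating subgroups of order divisible by `r` in orthogonal groups over all finite fields

`V` is a vector space of dimension at least 7 over a finite field `F` of any characteristic, with a quadratic form `Q` whose polar form is
nondegenerate, `S = PΩ(V)` (`POmQ Q`: the commutator subgroup of `O(Q)` modulo its centre). For every nontrivial automorphism `x` of `S`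
induced by a semisimilarity of `Q` and every odd prime `r` dividing `|S|`, including `r = 3`, the number `β_{r,S}(x)` (the least element of
`CSet r x`) is at most `r - 1`. Some `x` of order 2 (a reflection or transvection) attains `r - 1` whenever `r` does not divide `q` and
`r` divides no `q^i - 1` with `1 ≤ i < r - 1`.

`Chev (CartanMatrix.D 4) F` is the adjoint Chevalley group of type `D₄` over `F`, isomorphic to `PΩ₈⁺(F)`. For EVERY nontrivial automorphism
`x` (also for the triality automorphisms) and every odd prime `r` dividing the order, `β ≤ 3` if `r = 3` and `β ≤ r - 1` if `r > 3`. -/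

namespace Pool.Agent.Results.MP_561ff4_al.AllOrthogonalGroups

open Pool.Agent.ORE Pool.Agent.GS Pool.Agent.EXC Pool.Agent.EXN Module

noncomputable instance instIsC_D4 : IsC (CartanMatrix.D 4) := Pool.Agent.TRI.iC4

/-- Upper bound `r - 1` for `β_{r,S}(x)`, `S = PΩ(V)`, `dim V ≥ 7`, every finite field, all `x ≠ 1` induced by semisimilarities, all odd
primes `r` dividing `|S|`, and equality for an automorphism `x` of order 2 if the order of `q` modulo `r` is `r - 1`; and the bound of Q1 for
every automorphism `x ≠ 1` of `D₄(F) = PΩ₈⁺(F)`. -/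
theorem result :
    (∀ (F V : Type) [Field F] [Finite F] [AddCommGroup V] [Module F V] [FiniteDimensional F V] (Q : QuadraticForm F V), Nd Q → 7 ≤ finrank F V →
      (∀ x : MulAut (POmQ Q), IsPGammaOQ Q x → x ≠ 1 → ∀ r : ℕ, r.Prime → r ≠ 2 →
        r ∣ Nat.card (POmQ Q) → ∃ β, IsLeast (CSet r x) β ∧ β ≤ r - 1) ∧
      ∃ x : MulAut (POmQ Q), IsPGammaOQ Q x ∧ orderOf x = 2 ∧
        ∀ r : ℕ, r.Prime → r ≠ 2 → r ∣ Nat.card (POmQ Q) → ¬ r ∣ Nat.card F →
          (∀ i, 1 ≤ i → i < r - 1 → ¬ r ∣ Nat.card F ^ i - 1) → IsLeast (CSet r x) (r - 1)) ∧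
    ∀ (F : Type) [Field F] [Finite F] (x : MulAut (Chev (CartanMatrix.D 4) F)), x ≠ 1 → ∀ r : ℕ, r.Prime → r ≠ 2 →
      r ∣ Nat.card (Chev (CartanMatrix.D 4) F) → ∃ β, IsLeast (CSet r x) β ∧ (r = 3 → β ≤ 3) ∧ (3 < r → β ≤ r - 1) := by
  refine ⟨fun F V _ _ _ _ _ Q hQ hV => fin_ALL Q hQ hV, fun F _ _ x hx r hr hr2 hd => ?_⟩
  obtain ⟨k, hk, hle⟩ := Pool.Agent.TRI.D4_Q1 F x hx r hr hr2 hd
  refine ⟨sInf (CSet r x), ⟨Nat.sInf_mem ⟨k, hk⟩, fun _ h => Nat.sInf_le h⟩, fun e => ?_, fun e => ?_⟩
  · rw [if_pos e] at hle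
    exact (Nat.sInf_le hk).trans hle
  · rw [if_neg (by omega)] at hle
    exact (Nat.sInf_le hk).trans hle

end Pool.Agent.Results.MP_561ff4_al.AllOrthogonalGroups
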