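import Pool.Agent.helper17.FA.Exc

/-! # MP_561ff4_al: conjugates generating subgroups of order divisible by `r` in the exceptional groups

`S = Chev C F` is the adjoint Chevalley group over the finite field `F`, `C` the Cartan matrix of type `E₆`, `E₇` or `E₈`: the group of linear
maps of the Chevalley Lie algebra `Lm C F` generated by the root elements `x_α(t)`. The groups `Tw τ` in `Twisted F` are `F₄(F)` and, for
`F` of order `q²`, `²E₆(q)`. `x ≠ 1` is ANY automorphism of `S`, `β_{r,S}(x)` is the least element of `CSet r x`. `BoundQ1 x`: `β ≤ 3` if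
`r = 3`, `β ≤ r - 1` if `r > 3`, for all odd primes `r` dividing `|S|`. `Bounds q x` (`q = |F|`) adds: `β ≤ 2` if `r ∣ q`, `β ≤ 4` if
`r ∣ q⁴ - 1`, `β ≤ 6` if `r ∣ q⁶ - 1`. -/

set_option autoImplicit false

namespace Pool.Agent.Results.MP_561ff4_al.ExceptionalGroups

open Pool.Agent.EXN Pool.Agent.FA

/-- The bound of Q1 for all `x ≠ 1` in `Aut S`, `S` one of the groups `E₆(q)`, `E₇(q)`, `E₈(q)`, `F₄(q)`, `²E₆(q)`. -/
theorem result (F : Type) [Field F] [Finite F] :
    (∀ x : MulAut (Chev CartanMatrix.E₆ F), x ≠ 1 → BoundQ1 x ∧ Bounds (Nat.card F) x) ∧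
    (∀ x : MulAut (Chev CartanMatrix.E₇ F), x ≠ 1 → BoundQ1 x ∧ Bounds (Nat.card F) x) ∧
    (∀ x : MulAut (Chev CartanMatrix.E₈ F), x ≠ 1 → BoundQ1 x ∧ Bounds (Nat.card F) x) ∧
    Twisted F :=
  exc F

end Pool.Agent.Results.MP_561ff4_al.ExceptionalGroups
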