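import Pool.Agent.helper17.FA.Main

/-!
# MP_561ff4_al: the bound of Q1 for all remaining families of simple groups

For every finite field `F` the bound `β_{r,S}(x) ≤ 3` if `r = 3`, `β_{r,S}(x) ≤ r - 1` if `r > 3` (`BoundQ1`) holds for all odd primes `r`
dividing `|S|` and

* `S = PSp(2n, F)`, `n ≥ 2`, `x` in `PΓSp(2n, F)` (every automorphism if `n = 2` and `F` has characteristic 2),
* `S = PΩ(V)`, `dim V ≥ 7`, the polar form nondegenerate, `x` in `PΓO(V)`,
* `S` the adjoint Chevalley group of type `D₄`, `E₆`, `E₇` or `E₈` over `F`, every automorphism,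
* `S = F₄(F)` and, for `F` of order `q²`, `S = ²E₆(q)`, every automorphism.
-/

set_option autoImplicit false

namespace Pool.Agent.Results.MP_561ff4_al.FullAnswer

open Pool.Agent.FA

theorem result (F : Type) [Field F] [Finite F] :
    Symplectic F ∧ Orthogonal F ∧
      Chevalley F (CartanMatrix.D 4) ∧ Chevalley F CartanMatrix.E₆ ∧ Chevalley F CartanMatrix.E₇ ∧ Chevalley F CartanMatrix.E₈ ∧
      Twisted F :=
  main F

end Pool.Agent.Results.MP_561ff4_al.FullAnswer
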