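import Pool.Agent.helper22.GS.FinalT
import Pool.Agent.helper53.SP4.All

/-! # MP_561ff4_al: conjugates generating subgroups of order divisible by `r` in symplectic groups

`S = PSp(2n, q)`, `n ≥ 2`. For every nontrivial `x` in `PΓSp(2n, q)` and every odd prime `r` dividing `|S|` the number
`β_{r,S}(x)` (the least element of `CSet r x`) is at most `r - 1`; it is at most `2` if `r ∣ q` and at most `2m` if
`r ∣ q^(2m) - 1`, `1 ≤ m ≤ n`. Transvections, of order `p`, attain the bound `2m`, `m` minimal. For `S = PSp(4, 2^f)` EVERY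
automorphism `x ≠ 1` (also the graph automorphisms, which are not in `PΓSp(4, 2^f)`) has `β ≤ 4`, and `β ≤ 3` if `r = 3`. -/

namespace Pool.Agent.Results.MP_561ff4_al.SymplecticGroups

open Pool.Agent.GS

/-- The bounds for every `x ≠ 1` in `PΓSp(2n, q)` and every odd prime `r` dividing `|PSp(2n, q)|`. -/
def Bounds (n : ℕ) (F : Type) [Field F] [Finite F] : Prop :=
  ∀ x : MulAut (PSp n F), IsPGammaSp n F x → x ≠ 1 → ∀ r : ℕ, r.Prime → r ≠ 2 →
    r ∣ Nat.card (PSp n F) → ∃ β, IsLeast (CSet r x) β ∧ β ≤ r - 1 ∧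
      (r ∣ Nat.card F → β ≤ 2) ∧
      ∀ m, 1 ≤ m → m ≤ n → r ∣ Nat.card F ^ (2 * m) - 1 → β ≤ 2 * m

/-- The exact value for some `x` in `PΓSp(2n, q)` of order `p` (a transvection), for every odd prime `r` dividing
`|PSp(2n, q)|` but not `q`. -/
def Exact (n : ℕ) (F : Type) [Field F] [Finite F] : Prop :=
  ∃ x : MulAut (PSp n F), IsPGammaSp n F x ∧ orderOf x = ringChar F ∧
    ∀ r : ℕ, r.Prime → r ≠ 2 → r ∣ Nat.card (PSp n F) → ¬ r ∣ Nat.card F →
      ∀ m, IsLeast {m | 1 ≤ m ∧ r ∣ Nat.card F ^ (2 * m) - 1} m →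
        IsLeast (CSet r x) (2 * m)

/-- The bounds for every automorphism `x ≠ 1` of `PSp(4, q)`. -/
def Four (F : Type) [Field F] [Finite F] : Prop :=
  ∀ x : MulAut (PSp 2 F), x ≠ 1 → ∀ r : ℕ, r.Prime → r ≠ 2 →
    r ∣ Nat.card (PSp 2 F) → ∃ β, IsLeast (CSet r x) β ∧ β ≤ 4 ∧ β ≤ (if r = 3 then 3 else r - 1)

/-- Upper bounds for `β_{r,S}(x)`, `S = PSp(2n, q)`, `n ≥ 2`: all `x ≠ 1` in `PΓSp(2n, q)` and all odd primes `r` dividing `|S|`,
with the exact value for an element `x` of order `p` (a transvection); and all automorphisms `x ≠ 1` of `PSp(4, 2^f)`. -/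
theorem result :
    (∀ (n : ℕ) (F : Type) [Field F] [Finite F], 2 ≤ n → Bounds n F ∧ Exact n F) ∧
    ∀ (F : Type) [Field F] [CharP F 2] [Finite F], Four F :=
  ⟨fun n F _ _ hn => fin_FIT n F hn, fun F _ _ _ x hx r hr hr2 hrd => Pool.Agent.SP4.all F x hx r hr hr2 hrd⟩

end Pool.Agent.Results.MP_561ff4_al.SymplecticGroups
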